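import Pool.Agent.Q30.FJ.T1

/-!
# An extension criterion for Farrell–Jones groups

`C` is any class of groups with the closure properties `ClosedE C`, all of which are known for the
class of the groups that satisfy the K-theoretic Farrell–Jones conjecture with coefficients and
finite wreath products; every torsion-free group in that class has trivial Whitehead group.

Outline of the proof. By the extension criterion of the Farrell–Jones conjecture one has to treat
`N ⋊ ⟨g⟩` with `g` of infinite order modulo `N`. This group is the directed colimit of the
HNN-extensions with base the group `M` generated by finitely many conjugates by powers of `g` of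
a finite subset of `N`, and stable letter realizing the conjugation by `g` between subgroups of
`M`. If the base embeds in a group `P` in `C` in which the conjugation is inner, then the
HNN-extension maps to `P` with free kernel, and a free-by-`P` group of this kind embeds in
`F(X) ⋊ P` with `P` acting on the set `X`.
-/

set_option autoImplicit false

namespace Pool.Agent.Results.MP_8f66f0_al.ExtensionCriterion

open Pool.Agent.Y110.FJ (ClosedE Realized)
open Q30.FJ (RealizedAut FiniteAt)

/-- Let `C` be a class of groups with the closure properties `ClosedE C`.

1. Let `N` be a normal subgroup of `G` with `G ⧸ N` in `C`. Suppose that for all `g` in `G` and all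
finite subsets `E` of `N` the conjugation by `g` on `E` is realized by an inner automorphism of a
group in `C`, or by an automorphism of a group in `C` some positive power of which is inner,
or the group generated by `E` and `g E g⁻¹` is finite. Then `G` is in `C`.

2. Let the group of all permutations of a set `Ω` act on a group `N` in `C` such that every element
of `N` is fixed by the pointwise stabilizer of a finite subset of `Ω`, and let `Q` be a group in `C`
which acts on `Ω`. Then `N ⋊ Q` is in `C`. -/
theorem result (C : ∀ (G : Type) [Group G], Prop) (hC : ClosedE C) :
    (∀ (G : Type) [Group G] (N : Subgroup G) [N.Normal], C (G ⧸ N) →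
      (∀ (g : G) (E : Set G), E.Finite → E ⊆ N →
        Realized C g E ∨ RealizedAut C g E ∨ FiniteAt g E) → C G) ∧
    (∀ (Ω N Q : Type) [Group N] [Group Q] (α : Equiv.Perm Ω →* MulAut N) (ρ : Q →* Equiv.Perm Ω),
      (∀ n : N, ∃ S : Set Ω, S.Finite ∧ ∀ π : Equiv.Perm Ω, (∀ s ∈ S, π s = s) → α π n = n) →
      C N → C Q → C (N ⋊[α.comp ρ] Q)) :=
  ⟨fun G _ N _ hQ h => Q30.FJ.crit_three hC G N hQ h,
    fun Ω N Q _ _ α ρ h hN hQ => Q30.FJ.nom C hC Ω N Q α ρ h hN hQ⟩

end Pool.Agent.Results.MP_8f66f0_al.ExtensionCriterion
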