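import Pool.Agent.Q30.FJ.GPf

/-!
# Extensions whose kernel is a free product of a graph product and a free group
-/

set_option autoImplicit false

namespace Pool.Agent.Results.MP_8f66f0_al.GraphProductKernels

open Q30.FJ

theorem result : ∀ C : ∀ (G : Type) [Group G], Prop, ClosedF C →
    ∀ (G : Type) [Group G] (N : Subgroup G) [N.Normal] (V J : Type) (Λ : SimpleGraph V)
      (A : V → Subgroup G) (x : J → G), GFree Λ A x N → C (G ⧸ N) → (∀ v, A v ≠ ⊥) →
      (∀ (g : G) (v : V), ∃ w, Mv N g (A v) (A w)) →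
      (∀ (g : G) (v : V), ∃ k : ℕ, 0 < k ∧ ∀ (m : ℤ) (w : V),
        Mv N (g ^ ((k : ℤ) * m)) (A v) (A w) → ¬ Λ.Adj v w) →
      (∀ (v : V) (g : G), Maps g (A v) (A v) → C ↥(A v ⊔ Subgroup.zpowers g)) → C G :=
  fun _ hF _ _ _ _ _ _ _ _ _ h hQ hne hperm hst hC => gfree_main hF h hQ hne hperm hst hC

end Pool.Agent.Results.MP_8f66f0_al.GraphProductKernels
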