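import Pool.Agent.Q30.LS.LS4

/-!
# Groups acting on branched coverings of the complexes of right-angled Artin groups

Let `Λ` be a graph with vertex set `I` (finite or not), `L` its flag complex, and `κ` a flat
connection on `L` with values in the group `P`; it defines a regular covering `L'` of `L` with group
`P`, with vertex set `P × I`. The group `BA Λ κ`, generated by `P` and an element `t i` for each
`i` with the relations that `t i` commutes with the conjugate of `t j` by `κ i j` for adjacent `i`
and `j`, is the semidirect product of the right-angled Artin group of `L'` with `P`. For a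
homomorphism `h` to a group `D` which kills `P` and a subset `S` of `D` the group `Lea h S` is the
quotient of the kernel of `h` by the normal closure of the conjugates of `P` by the elements `g`
with `h g ∈ S`.

If `P` is the fundamental group of `L`, `L'` the universal covering, `D` infinite cyclic and all
`t i` are mapped to the generator, then these are the groups `G_L(S)` of Leary, `S` a set of
integers, in particular his uncountable family of groups of type FP.

Outline of the proof. The kernel of the map to the right-angled Artin group of `L` is the free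
product of conjugates of `P`, one for each element of the Artin group: this is shown by adding the
vertices one by one, which amounts to semidirect products with free groups on sets on which the
kernel acts freely. Hence `Lea h S` is an extension of a subgroup of a right-angled Artin group by
a free product of copies of `P`, permuted freely, and our theorem on extensions whose
kernel is a free product applies.
-/

set_option autoImplicit false

namespace Pool.Agent.Results.MP_8f66f0_al.LearyGroups

open Q30.FJ (ClosedF)
open Q30.LS (Flat)

variable {I P : Type} [Group P]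

/-- the relators -/
def rel (Λ : SimpleGraph I) (κ : I → I → P) : Set (Monoid.Coprod P (FreeGroup I)) :=
  {x | ∃ (i j : I) (a b : Monoid.Coprod P (FreeGroup I)), Λ.Adj i j ∧
    a = Monoid.Coprod.inr (FreeGroup.of i) ∧
    b = Monoid.Coprod.inl (κ i j) * Monoid.Coprod.inr (FreeGroup.of j) *
      (Monoid.Coprod.inl (κ i j))⁻¹ ∧ x = a * b * (b * a)⁻¹}

/-- the group generated by `P` and elements `t i`, such that `t i` commutes with the conjugate of
`t j` by `κ i j` if `i` and `j` are adjacent -/
abbrev BA (Λ : SimpleGraph I) (κ : I → I → P) : Type :=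
  Monoid.Coprod P (FreeGroup I) ⧸ Subgroup.normalClosure (rel Λ κ)

/-- the map from `P` -/
def emb (Λ : SimpleGraph I) (κ : I → I → P) : P →* BA Λ κ :=
  (QuotientGroup.mk' (Subgroup.normalClosure (rel Λ κ))).comp Monoid.Coprod.inl

/-- the quotient of the kernel of `h` by the conjugates of `P` by the elements `g` with `h g ∈ S` -/
abbrev Lea {D : Type} [Group D] {Λ : SimpleGraph I} {κ : I → I → P} (h : BA Λ κ →* D)
    (S : Set D) : Type :=
  h.ker ⧸ Subgroup.normalClosure {x : h.ker | ∃ (g : BA Λ κ) (p : P), h g ∈ S ∧
    (x : BA Λ κ) = g * emb Λ κ p * g⁻¹}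

theorem isVR (Λ : SimpleGraph I) (κ : I → I → P) : Q30.LS.IsVR Λ κ (emb Λ κ)
    (fun i => QuotientGroup.mk' (Subgroup.normalClosure (rel Λ κ))
      (Monoid.Coprod.inr (FreeGroup.of i))) := by
  refine ⟨?_, ?_, ?_⟩
  · intro i j hij
    obtain ⟨a, ha⟩ : ∃ a : Monoid.Coprod P (FreeGroup I),
      a = Monoid.Coprod.inr (FreeGroup.of i) := ⟨_, rfl⟩
    obtain ⟨b, hb⟩ : ∃ b : Monoid.Coprod P (FreeGroup I),
      b = Monoid.Coprod.inl (κ i j) * Monoid.Coprod.inr (FreeGroup.of j) *
      (Monoid.Coprod.inl (κ i j))⁻¹ := ⟨_, rfl⟩
    have h1 : a * b * (b * a)⁻¹ ∈ Subgroup.normalClosure (rel Λ κ) :=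
      Subgroup.subset_normalClosure ⟨i, j, a, b, hij, ha, hb, rfl⟩
    have h2 := (QuotientGroup.eq_one_iff _).2 h1
    have h3 : QuotientGroup.mk' (Subgroup.normalClosure (rel Λ κ)) (a * b * (b * a)⁻¹) = 1 := h2
    rw [map_mul, map_inv, mul_inv_eq_one, map_mul, map_mul] at h3
    have h4 : Commute (QuotientGroup.mk' (Subgroup.normalClosure (rel Λ κ)) a)
      (QuotientGroup.mk' (Subgroup.normalClosure (rel Λ κ)) b) := h3
    rw [ha, hb, map_mul, map_mul, map_inv] at h4
    exact h4
  · intro M hM ht x
    obtain ⟨x, rfl⟩ := QuotientGroup.mk'_surjective _ x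
    induction x using Monoid.Coprod.induction_on with
    | inl p => exact hM p
    | inr u =>
      induction u using FreeGroup.induction_on with
      | C1 =>
        rw [map_one, map_one]
        exact one_mem _
      | of i => exact ht i
      | inv_of i _ =>
        rw [map_inv, map_inv]
        exact inv_mem (ht i)
      | mul u v hu hv =>
        rw [map_mul, map_mul]
        exact mul_mem hu hv
    | mul x y hx hy =>
      rw [map_mul]
      exact mul_mem hx hy
  · intro H _ f u hu
    refine ⟨QuotientGroup.lift (Subgroup.normalClosure (rel Λ κ))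
      (Monoid.Coprod.lift f (FreeGroup.lift u)) ?_, ?_, ?_⟩
    · have h1 : Subgroup.normalClosure (rel Λ κ) ≤
          (Monoid.Coprod.lift f (FreeGroup.lift u)).ker := by
        apply Subgroup.normalClosure_le_normal
        rintro _ ⟨i, j, a, b, hij, rfl, rfl, rfl⟩
        show Monoid.Coprod.lift f (FreeGroup.lift u) _ = 1
        rw [map_mul, map_inv, mul_inv_eq_one]
        simp only [map_mul, map_inv, Monoid.Coprod.lift_apply_inr, Monoid.Coprod.lift_apply_inl,
          FreeGroup.lift_apply_of]
        exact hu i j hij
      exact h1
    · intro p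
      show Monoid.Coprod.lift f (FreeGroup.lift u) (Monoid.Coprod.inl p) = f p
      rw [Monoid.Coprod.lift_apply_inl]
    · intro i
      show Monoid.Coprod.lift f (FreeGroup.lift u) (Monoid.Coprod.inr (FreeGroup.of i)) = u i
      rw [Monoid.Coprod.lift_apply_inr, FreeGroup.lift_apply_of]

/-- The groups `Lea h S` are in the class `C` if and only if `P` is in `C` or `S` contains all
values of `h`. -/
theorem result : ∀ C : ∀ (G : Type) [Group G], Prop, ClosedF C →
    ∀ (I P D : Type) [Group P] [Group D] (Λ : SimpleGraph I) (κ : I → I → P), Flat Λ κ →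
      ∀ h : BA Λ κ →* D, (∀ p : P, h (emb Λ κ p) = 1) → ∀ S : Set D,
        (C (Lea h S) ↔ (C P ∨ ∀ g, h g ∈ S)) := by
  intro C hC I P D _ _ Λ κ hκ h hh S
  exact Q30.LS.inf_case hC hκ (isVR Λ κ) hh S

end Pool.Agent.Results.MP_8f66f0_al.LearyGroups
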