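import Pool.Agent.Q30.PA.Sub

/-!
# Groups of polynomial automorphisms of the plane

For an infinite field `k` let `T(k)` be the group of permutations of the plane `k × k` generated by
the invertible affine maps and the maps `(x, y) ↦ (x + p y, y)`, `p` a polynomial. By the theorem of
Jung and van der Kulk it is the group of all polynomial automorphisms of the plane, isomorphic to
the group of automorphisms of the polynomial ring in two variables. We show that `T(k)` is in a
class of groups with the usual closure properties of the class of Farrell-Jones groups if and only
if the group `GL(2, k)` is in it, and that in characteristic `0` a subgroup of `T(k)` is in the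
class if and only if its subgroups which are conjugate to groups of affine maps are in it.

Outline of the proof. In characteristic `0` the group `T(k)` is the amalgam of the affine group and
the solvable group of de Jonquières maps, and acts on the tree of the amalgam so that the pointwise
stabilizers of long paths are finite. In characteristic `p` this is not true, as the translations
commute with the maps `(x, y) ↦ (x + p y, y)`, `p` an additive polynomial, up to translations. Let
`H` be the group generated by the affine maps and the de Jonquières maps with additive polynomials
and constants. Then `T(k)` is the amalgam of `H` and the de Jonquières group (or `T(k) = H`), and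
the pointwise stabilizers of long paths in the tree of this amalgam are finite. The quotient of `H`
by the translations is the amalgam of `GL(2, k)` and a solvable group, and the linear coefficients
define a homomorphism of this quotient to `GL(2, k)` which is injective on the edge group.
-/

set_option autoImplicit false

namespace Pool.Agent.Results.MP_8f66f0_al.PlaneAutomorphisms

open Q182.Cyl (ClosedA)

variable {k : Type} [Field k]

/-- the invertible affine maps of the plane -/
def IsAffine (f : Equiv.Perm (k × k)) : Prop :=
  ∃ a b c d e g : k, a * d - b * c ≠ 0 ∧
    ∀ x y, f (x, y) = (a * x + b * y + e, c * x + d * y + g)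

/-- the elementary maps of the plane -/
def IsElementary (f : Equiv.Perm (k × k)) : Prop :=
  ∃ p : Polynomial k, ∀ x y, f (x, y) = (x + p.eval y, y)

variable (k) in
/-- the group of permutations of the plane generated by the affine and the elementary maps -/
def TameGroup : Subgroup (Equiv.Perm (k × k)) :=
  Subgroup.closure {f | IsAffine f ∨ IsElementary f}

/-- (1) For infinite fields the group of tame automorphisms of the plane is in the class `C` if and
only if `GL(2, k)` is. (2) In characteristic `0` a subgroup `M` is in the class if and only if all
its subgroups which are conjugate to groups of affine maps are. -/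
theorem result : ∀ C : ∀ (G : Type) [Group G], Prop, ClosedA C →
    (∀ (G : Type) [Group G], Group.IsSolvable G → C G) → ∀ (k : Type) [Field k],
      (Infinite k → (C (TameGroup k) ↔ C (Matrix.GeneralLinearGroup (Fin 2) k))) ∧
      (CharZero k → ∀ M ≤ TameGroup k,
        (C M ↔ ∀ A ≤ M, (∃ g ∈ TameGroup k, ∀ m ∈ A, IsAffine (g⁻¹ * m * g)) → C A)) := by
  intro C hC hsol k _
  have h1 : TameGroup k = Q30.PA.Tame k := rfl
  refine ⟨fun _ => Q30.PA.main hC hsol, fun _ M hM => ⟨fun h A hA _ => ?_, fun h => ?_⟩⟩
  · exact hC.base.base.of_injective _ _ (Subgroup.inclusion hA) (Subgroup.inclusion_injective _) h
  · rw [Q30.PA.main_zero hC hsol M hM]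
    intro g hg
    refine h _ inf_le_left ⟨g, hg, ?_⟩
    rintro m ⟨-, a, ha, rfl⟩
    have h2 : g⁻¹ * (MulAut.conj g).toMonoidHom a * g = a := by
      show g⁻¹ * (g * a * g⁻¹) * g = a
      group
    rw [h2]
    exact ha

end Pool.Agent.Results.MP_8f66f0_al.PlaneAutomorphisms
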